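import Pool.Agent.RAT.H.Main

/-!
The question in a half plane: two independent uniformly distributed self-avoiding paths of length `n` in the half
`Re z ≥ 0` of the honeycomb lattice, both from the boundary vertex `0`: two-sided power-law bounds for the probability
that they do not intersect, for every `n`.
-/

namespace Pool.Agent.Results.MP_8c6f77_pr.HalfPlaneUniform

open Pool.Agent.Hhelper64.Two Pool.Agent.RAT

/-- There is `C > 0` such that for every `n ≥ 1` the probability `P halfPlane n` that `w{1,...,n}` and `w'{0,...,n}`
are disjoint, `w, w'` independent and uniform among the self-avoiding paths of length `n` from `0` in the half plane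
`Re z ≥ 0` of the honeycomb lattice, is at least `n^(-C) / C` and at most `C n^(-1/26)`. -/
theorem result : ∃ C : ℝ, 0 < C ∧ ∀ n : ℕ, 1 ≤ n →
    (n : ℝ) ^ (-C) / C ≤ P halfPlane n ∧ P halfPlane n ≤ C * (n : ℝ) ^ (-(1 / 26) : ℝ) :=
  half_plane

end Pool.Agent.Results.MP_8c6f77_pr.HalfPlaneUniform
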