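import Pool.Agent.RAT.E.Mixed

/-!
Two regular planar lattices, the honeycomb lattice and the lattice `(3,12^2)`: power-law bounds, for every `n`, for
the probability that a uniform self-avoiding walk of length `n` avoids an independent self-avoiding walk which is
longer: of length `N ≥ n` (lower bound), of length `N ≥ n^5` (both bounds), of random length with the law
`x^|w'| / χ(x)`, `x` near the critical value (both bounds).
-/

namespace Pool.Agent.Results.MP_8c6f77_pr.MixedEnsemble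

open Pool.Agent.Hhelper64.Two Pool.Agent.RAT

/-- `L` is the honeycomb lattice or the lattice `(3,12^2)`. There is `C > 0` such that for every `n ≥ 1`:
(i) for `N ≥ n` the probability `P2 L n N` that `w{1,...,n}` and `w'{0,...,N}` are disjoint, `w, w'` independent
uniform self-avoiding paths of lengths `n, N`, is at least `n^(-C) / C`; (ii) for `N ≥ n^5` it is at most
`C n^(-1/262)`; (iii) if `1 - 1/(2n) ≤ x μ_L < 1` then `χ(x) = ∑ a_m x^m` is finite and the probability `PMix L n x` of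
the same event, `w` uniform of length `n` and `w'` a self-avoiding path of any finite length with probability
`x^|w'| / χ(x)`, lies between `n^(-C) / C` and `C n^(-1/262)`. -/
theorem result (L : Set ℂ) (hL : L = honeycomb ∨ L = truncated) :
    ∃ C : ℝ, 0 < C ∧ ∀ n : ℕ, 1 ≤ n →
      (∀ N : ℕ, n ≤ N → (n : ℝ) ^ (-C) / C ≤ P2 L n N) ∧
      (∀ N : ℕ, n ^ 5 ≤ N → P2 L n N ≤ C * (n : ℝ) ^ (-(1 / 262) : ℝ)) ∧
      (∀ x : ℝ, 1 - 1 / (2 * n) ≤ x * muL L → x * muL L < 1 →
        (Summable fun m => (a L m : ℝ) * x ^ m) ∧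
        (n : ℝ) ^ (-C) / C ≤ PMix L n x ∧ PMix L n x ≤ C * (n : ℝ) ^ (-(1 / 262) : ℝ)) := by
  obtain ⟨C₁, h1, g1, g2, -, -⟩ := all_bounds L hL
  obtain ⟨C₂, h2, g3⟩ := mixed L hL
  have k1 : C₁ ≤ max C₁ C₂ := le_max_left _ _
  have k2 : C₂ ≤ max C₁ C₂ := le_max_right _ _
  have k0 : 0 < max C₁ C₂ := h1.trans_le k1
  have key : ∀ (n : ℕ) (K : ℝ), 1 ≤ n → 0 < K → K ≤ max C₁ C₂ →
      (n : ℝ) ^ (-(max C₁ C₂)) / max C₁ C₂ ≤ (n : ℝ) ^ (-K) / K := by
    intro n K hn hK h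
    have hn1 : (1 : ℝ) ≤ n := by exact_mod_cast hn
    have : (n : ℝ) ^ (-(max C₁ C₂)) ≤ (n : ℝ) ^ (-K) := Real.rpow_le_rpow_of_exponent_le hn1 (by linarith)
    have h0 : 0 ≤ (n : ℝ) ^ (-K) := by positivity
    gcongr
  refine ⟨max C₁ C₂, k0, fun n hn => ⟨fun N hN => ?_, fun N hN => ?_, fun x hx1 hx2 => ?_⟩⟩
  · exact (key n C₁ hn h1 k1).trans (g1 n N hn hN)
  · refine (g2 n N hn hN).trans ?_
    gcongr
  · obtain ⟨a1, a2, a3⟩ := g3 n x hn hx1 hx2
    refine ⟨a1, (key n C₂ hn h2 k2).trans a2, a3.trans ?_⟩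
    gcongr

end Pool.Agent.Results.MP_8c6f77_pr.MixedEnsemble
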