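import Pool.Agent.RAT.E.TL

/-!
Two regular planar lattices, the honeycomb lattice and the lattice `(3,12^2)`: two-sided power-law bounds for the
probability that two self-avoiding walks of lengths `n` and `N` do not intersect, for every `n` and every `N ≥ n^5`.
-/

namespace Pool.Agent.Results.MP_8c6f77_pr.UnequalLengths

open Pool.Agent.Hhelper64.Two Pool.Agent.RAT

/-- `L` is the honeycomb lattice or the lattice `(3,12^2)`. There is `C > 0` such that for all `n ≥ 1` and `N ≥ n^5`
the probability `P2 L n N` that `w{1,...,n}` and `w'{0,...,N}` are disjoint, `w, w'` independent uniform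
self-avoiding paths of lengths `n, N` from `0`, is at least `n^(-C) / C` and at most `C n^(-1/262)`. -/
theorem result (L : Set ℂ) (hL : L = honeycomb ∨ L = truncated) :
    ∃ C : ℝ, 0 < C ∧ ∀ n N : ℕ, 1 ≤ n → n ^ 5 ≤ N →
      (n : ℝ) ^ (-C) / C ≤ P2 L n N ∧ P2 L n N ≤ C * (n : ℝ) ^ (-(1 / 262) : ℝ) :=
  two_lengths L hL

end Pool.Agent.Results.MP_8c6f77_pr.UnequalLengths
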